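import Pool.Agent.MP_fcd29e_an.H63.FT

/-! Theorem R: from line bundles to forms of all bidegrees. -/

set_option autoImplicit false

namespace Pool.Agent.MP_fcd29e_an.H33

open Pool.Agent.MP_fcd29e_an.H81 Pool.Agent.MP_fcd29e_an.H63
open MeasureTheory Complex Set Filter Topology Metric
open scoped ContDiff ComplexConjugate ENNReal NNReal

noncomputable section

variable {N : ℕ}

/-- The Fubini–Study form on the cone. -/
def om (i j : Fin N) (z : E N) : ℂ :=
  (if j = i then 1 else 0) * ((‖z‖ ^ 2 : ℝ) : ℂ)⁻¹ - th i z * thb j z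

theorem nsq_smooth (z : E N) : ContDiffAt ℝ ∞ (cx fun w : E N => ‖w‖ ^ 2) z :=
  contDiffAt_cx (contDiff_norm_sq ℝ).contDiffAt

theorem dzb_th (i j : Fin N) {z : E N} (hz : z ≠ 0) : dzb j (th i) z = om i j z := by
  have h1 := nsq_ne hz
  have h2 := ContDiffAt.da (nsq_smooth z)
  have h3 : DifferentiableAt ℝ (fun w : E N => conj (w i)) z :=
    differentiableAt_conj (ContDiffAt.da (contDiff_coord i).contDiffAt)
  have h4 := dzb_comp_hol j h2 (hasDerivAt_inv h1)
  have h5 : th i = fun w : E N => conj (w i) * ((cx fun w : E N => ‖w‖ ^ 2) w)⁻¹ := by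
    funext w; simp only [th, cx, div_eq_mul_inv]
  have h6 : DifferentiableAt ℝ (fun w => ((cx fun w : E N => ‖w‖ ^ 2) w)⁻¹) z := h2.inv h1
  rw [h5, dzb_mul j h3 h6, h4, dzb_coord_conj, dzb_normSq]
  simp only [om, th, thb, cx]
  field_simp
  ring

theorem thb_smooth (j : Fin N) : ContDiffOn ℝ ∞ (thb j) (E0 N) := by
  intro z hz
  refine ContDiffAt.contDiffWithinAt ?_
  exact (contDiff_coord j).contDiffAt.mul ((nsq_smooth z).inv (nsq_ne hz))

theorem om_smooth (i j : Fin N) : ContDiffOn ℝ ∞ (om i j) (E0 N) := by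
  refine ContDiffOn.sub (contDiffOn_const.mul fun z hz => ?_) ((th_smooth i).mul (thb_smooth j))
  exact ((nsq_smooth z).inv (nsq_ne hz)).contDiffWithinAt

theorem om_hom (i j : Fin N) : Hom (E0 N) (-1) (-1) (om i j) := by
  intro c hc z hz
  have h1 := nsq_ne (z := z) hz
  have h2 : conj c ≠ 0 := (map_ne_zero _).2 hc
  have h3 : ((‖c • z‖ ^ 2 : ℝ) : ℂ) = c * conj c * ((‖z‖ ^ 2 : ℝ) : ℂ) := by
    rw [norm_smul, mul_pow, Complex.mul_conj, Complex.normSq_eq_norm_sq]; push_cast; ring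
  unfold om th thb
  rw [h3, PiLp.smul_apply, PiLp.smul_apply, smul_eq_mul, smul_eq_mul, map_mul, zpow_neg_one,
    zpow_neg_one]
  field_simp

theorem sum_thb {z : E N} (hz : z ≠ 0) : ∑ l, conj (z l) * thb l z = 1 := by
  have h1 := nsq_ne hz
  unfold thb
  simp only [← mul_div_assoc]
  rw [← Finset.sum_div, Finset.sum_congr rfl fun l _ => mul_comm (conj (z l)) (z l),
    ← norm_sq_eq, div_self h1]

theorem sum_om_left (j : Fin N) {z : E N} (hz : z ≠ 0) : ∑ l, z l * om l j z = 0 := by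
  simp only [om, mul_sub, Finset.sum_sub_distrib, ← mul_assoc, ← Finset.sum_mul, sum_th hz]
  simp [thb, div_eq_mul_inv]

theorem sum_om_right (i : Fin N) {z : E N} (hz : z ≠ 0) : ∑ l, conj (z l) * om i l z = 0 := by
  have h : ∀ l, conj (z l) * om i l z = conj (z l) * (if l = i then 1 else 0) *
      ((‖z‖ ^ 2 : ℝ) : ℂ)⁻¹ - th i z * (conj (z l) * thb l z) := fun l => by
    simp only [om]; ring
  simp only [h, Finset.sum_sub_distrib, ← Finset.mul_sum, ← Finset.sum_mul, sum_thb hz]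
  simp [th, div_eq_mul_inv]

theorem hb_wd (L : Lv1) {q : ℕ} {m : ℤ} (i : Fin N) (f : Arr N q) (hf : HB (E0 N) m f) :
    HB (E0 N) (m - 1) (wd (om i) f) := by
  refine ⟨fun J c hc z hz => ?_, fun J σ z hz => ?_, fun J b z hz => ?_⟩
  · have h2 : conj c ≠ 0 := (map_ne_zero _).2 hc
    simp only [wd, wdA]
    rw [Finset.mul_sum]
    refine Finset.sum_congr rfl fun a _ => ?_
    rw [om_hom i _ c hc z hz, hf.hom _ c hc z hz]
    have e1 : c ^ (m - 1) = c ^ (-1 : ℤ) * c ^ m := by
      rw [← zpow_add₀ hc]; congr 1; ring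
    have e2 : conj c ^ (-((q + 1 : ℕ) : ℤ)) = conj c ^ (-1 : ℤ) * conj c ^ (-(q : ℤ)) := by
      rw [← zpow_add₀ h2]; congr 1; push_cast; ring
    rw [e1, e2]
    ring
  · exact ((L.al1 N q 0 fun j => om i j z).1 fun K => f K z).1 (fun K τ => hf.alt K τ z hz) J σ
  · exact ((L.al1 N q (fun l => conj (z l)) fun j => om i j z).1 fun K => f K z).2.2.1
      (fun K τ => hf.alt K τ z hz) (fun K a => hf.hor K a z hz) (sum_om_right i hz) J b

theorem alt_sum {q : ℕ} {ι : Type} [Fintype ι] (c : ι → ℂ) (x : ι → (Fin q → Fin N) → ℂ)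
    (h : ∀ i, altA (x i)) : altA fun J => ∑ i, c i * x i J := by
  intro J σ
  simp only [Finset.mul_sum]
  refine Finset.sum_congr rfl fun i _ => ?_
  rw [h i J σ]; ring

theorem hor_sum {q : ℕ} {ι : Type} [Fintype ι] (ζ : Fin N → ℂ) (c : ι → ℂ)
    (x : ι → (Fin q → Fin N) → ℂ) (h : ∀ i, horA ζ (x i)) :
    horA ζ fun J => ∑ i, c i * x i J := by
  intro J a
  simp only [Finset.mul_sum]
  rw [Finset.sum_comm]
  refine Finset.sum_eq_zero fun i _ => ?_
  have := h i J a
  calc ∑ l, ζ l * (c i * x i (Function.update J a l))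
      = c i * ∑ l, ζ l * x i (Function.update J a l) := by
        rw [Finset.mul_sum]
        exact Finset.sum_congr rfl fun l _ => by ring
    _ = 0 := by rw [this, mul_zero]

theorem hb_sub {U : Set (E N)} {q : ℕ} {m : ℤ} (f g : Arr N q) (hf : HB U m f) (hg : HB U m g) :
    HB U m fun J z => f J z - g J z := by
  refine ⟨fun J c hc z hz => ?_, fun J σ z hz => ?_, fun J b z hz => ?_⟩
  · show f J (c • z) - g J (c • z) = _ * (f J z - g J z)
    rw [hf.hom J c hc z hz, hg.hom J c hc z hz]; ring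
  · show f (J ∘ σ) z - g (J ∘ σ) z = _ * (f J z - g J z)
    rw [hf.alt J σ z hz, hg.alt J σ z hz]; ring
  · simp only [mul_sub, Finset.sum_sub_distrib, hf.hor J b z hz, hg.hor J b z hz, sub_zero]

theorem thmR (L : Lv1) (h : StmtLB) (ht : StmtFT) : StmtR := by
  intro q ρ φ hρ hφ k p
  refine ⟨?_, fun f hf hs _ => ht q ρ hρ (k + 1) p f hf hs⟩
  intro f hf hs hcl
  have hO := L.c1 _ ρ hρ
  have h0 : (0 : E (q + 3)) ∉ Om ρ := hO.2.2.1.1
  have hfa : ∀ J z, z ≠ 0 → altA fun I => f I J z := fun J z hz I σ => hf.alt I J σ z hz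
  have hfh : ∀ J z, z ≠ 0 → horA (fun l => z l) fun I => f I J z :=
    fun J z hz I a => hf.hor I J a z hz
  rcases le_or_gt (q + 3) p with hp | hp
  · refine ⟨fun _ _ _ => 0, ⟨fun I => ⟨fun J c _ z _ => ?_, fun J σ z _ => ?_, fun J a z _ => ?_⟩,
      fun I J σ z _ => ?_, fun I J a z _ => ?_⟩, fun I J => ?_, fun I J ψ _ => ?_⟩
    · simp
    · simp
    · simp
    · simp
    · simp
    · exact (((L.sb _).1 (E0 _) isOpen_E0 cone_E0.1 (k + 1)).2.2.1) _ contDiffOn_const
    · have : ∫ z in Om ρ, f I J z * ψ z = 0 := by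
        refine setIntegral_eq_zero_of_forall_eq_zero fun z hz => ?_
        have := ((L.al1 _ p (fun l => z l) 0).1 _).2.2.2.1 (hfa J z hz.1) (hfh J z hz.1)
          (fun e => hz.1 (PiLp.ext fun l => congrFun e l)) hp I
        rw [this, zero_mul]
      rw [this]; simp
  · let g : (Fin (p + 1) → Fin (q + 3)) → Arr (q + 3) (q + 1) := fun I J z =>
      ∑ a : Fin (p + 1), ((-1) ^ (a : ℕ) * th (I a) z) * f (a.removeNth I) J z
    have hg1 : ∀ I, HB (E0 _) (-((p + 1 : ℕ) : ℤ)) (g I) := fun I =>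
      hb_comb (a := -1) (m := -p) (by push_cast; ring)
        (fun (a : Fin (p + 1)) z => (-1) ^ (a : ℕ) * th (I a) z) _
        (fun a c hc z hz => by beta_reduce; rw [th_hom _ c hc z hz]; ring) fun a => hf.hb _
    have hg2 : ∀ I J, Sob (E0 _) (k + 1) (g I J) := fun I J =>
      sob_comb L (fun (a : Fin (p + 1)) z => (-1) ^ (a : ℕ) * th (I a) z) _
        (fun a => contDiffOn_const.mul (th_smooth _)) fun a => hs _ J
    let F : Form (q + 3) (p + 1) (q + 1 + 1) := fun I J z =>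
      ∑ a : Fin (p + 1), (-1) ^ (a : ℕ) * wd (om (I a)) (f (a.removeNth I)) J z
    have hw2 : ∀ i K J, Sob (E0 _) (k + 1) (wd (om i) (f K) J) := fun i K J =>
      sob_comb L (fun (b : Fin (q + 1 + 1)) z => (-1) ^ (b : ℕ) * om i (J b) z) _
        (fun b => contDiffOn_const.mul (om_smooth _ _)) fun b => hs K _
    have hF2 : ∀ I J, Sob (E0 _) (k + 1) (F I J) := fun I J =>
      sob_comb L (fun (a : Fin (p + 1)) _ => (-1) ^ (a : ℕ)) _
        (fun a => contDiffOn_const) fun a => hw2 _ _ J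
    have hFe : ∀ J z, (fun I => F I J z) = fun I => ∑ b : Fin (q + 1 + 1), (-1) ^ (b : ℕ) *
        wdA (fun i => om i (J b) z) (fun K => f K (b.removeNth J) z) I := by
      intro J z
      funext I
      simp only [F, wd, wdA, Finset.mul_sum]
      rw [Finset.sum_comm]
      refine Finset.sum_congr rfl fun b _ => Finset.sum_congr rfl fun a _ => ?_
      ring
    have hF1 : Basic (E0 _) F := by
      refine ⟨fun I => ?_, fun I J σ z hz => ?_, fun I J a z hz => ?_⟩
      · exact hb_comb (a := 0) (m := -p - 1) (by push_cast; ring)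
          (fun (a : Fin (p + 1)) _ => (-1) ^ (a : ℕ)) _ (fun a c hc z hz => by simp)
          fun a => hb_wd L _ _ (hf.hb _)
      · have h1 : altA fun I => F I J z := by
          rw [hFe]
          exact alt_sum _ _ fun b => ((L.al1 _ p 0 _).1 _).1 (hfa _ z hz)
        exact h1 I σ
      · have h1 : horA (fun l => z l) fun I => F I J z := by
          rw [hFe]
          exact hor_sum _ _ _ fun b => ((L.al1 _ p _ _).1 _).2.2.1 (hfa _ z hz) (hfh _ z hz)
            (sum_om_left _ hz)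
        exact h1 I a
    have T := L.t1 _ (Om ρ) hO.1 h0
    have hg3 : ∀ I, DB (Om ρ) (g I) (F I) := by
      intro I
      have FR := L.frm (q + 3) (q + 1) (Om ρ) hO.1 h0
      have h1 : ∀ i K, DB (Om ρ) (fun J z => th i z * f K J z) (wd (om i) (f K)) := by
        intro i K
        have h2 := ((FR.1 _ _ (hcl K)).2.2.2 (fun J => l2_of_sob L h0 (hs K J))
          (fun J => T.2.2.1 _ continuousOn_const)).2.1 (th i) (th_smooth i)
        refine (FR.1 _ _ h2).1 _ _ (fun J => Eventually.of_forall fun z _ => rfl)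
          fun J => Eventually.of_forall fun z hz => ?_
        simp [wd, wdA, dzb_th _ _ hz.1]
      have h2 := db_comb L hO.1 h0 (fun (a : Fin (p + 1)) _ => (-1) ^ (a : ℕ))
        (fun a J z => th (I a) z * f (a.removeNth I) J z)
        (fun a => wd (om (I a)) (f (a.removeNth I))) (fun a => contDiffOn_const)
        (fun _ j z => dzb_const j _ z)
        (fun a J => (T.1 _ (l2_of_sob L h0 (hs _ J))).2.2.2.2.1 _ (th_smooth _).continuousOn)
        (fun a J => l2_of_sob L h0 (hw2 _ _ J)) (fun a => h1 _ _) (F I) fun J z _ => rfl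
      refine (FR.1 _ _ h2).1 _ _ (fun J => Eventually.of_forall fun z _ => ?_)
        fun J => Eventually.of_forall fun z _ => rfl
      exact Finset.sum_congr rfl fun a _ => (mul_assoc _ _ _).symm
    obtain ⟨v, hv1, hv2, hv3⟩ := ht q ρ hρ (k + 1) (p + 1) F hF1 hF2
    let w : (Fin (p + 1) → Fin (q + 3)) → Arr (q + 3) (q + 1) := fun I J z => g I J z - v I J z
    have hw1 : ∀ I, HB (E0 _) (-((p + 1 : ℕ) : ℤ)) (w I) := fun I =>
      hb_sub _ _ (hg1 I) (hv1.hb I)
    have hw3 : ∀ I J, Sob (E0 _) (k + 1) (w I J) := fun I J =>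
      ((((L.sb _).1 (E0 _) isOpen_E0 cone_E0.1 (k + 1)).1 _ (hg2 I J)).2.2.1 _ (hv2 I J)).2
    have hw4 : ∀ I, DB (Om ρ) (w I) 0 := by
      intro I
      have FR := L.frm (q + 3) (q + 1) (Om ρ) hO.1 h0
      have h1 := FR.2.2.1 _ _ _ _ (hg3 I) (hv3 I)
        (fun J => ⟨l2_of_sob L h0 (hg2 I J), l2_of_sob L h0 (hv2 I J)⟩)
        (fun J => ⟨l2_of_sob L h0 (hF2 I J), l2_of_sob L h0 (hF2 I J)⟩)
      exact (FR.1 _ _ h1).1 _ _ (fun J => Eventually.of_forall fun z _ => rfl)
        fun J => Eventually.of_forall fun z _ => sub_self _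
    have hwa : ∀ J z, z ≠ 0 → altA fun I => w I J z := by
      intro J z hz I σ
      have h1 := ((L.al1 _ p 0 fun j => th j z).1 _).1 (hfa J z hz) I σ
      have h2 := hv1.alt I J σ z hz
      show g (I ∘ σ) J z - v (I ∘ σ) J z = _ * (g I J z - v I J z)
      rw [h2, mul_sub]
      exact congrArg (· - _) h1
    choose y hy1 hy2 hy3 using fun I =>
      h q ρ φ hρ hφ k (-((p + 1 : ℕ) : ℤ)) (by omega) (by omega) (w I) (hw1 I) (hw3 I) (hw4 I)
    let y' : (Fin (p + 1) → Fin (q + 3)) → Arr (q + 3) q := fun I J z =>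
      ∑ σ : Equiv.Perm (Fin (p + 1)),
        ((((p + 1).factorial : ℂ))⁻¹ * (Equiv.Perm.sign σ : ℤ)) * y (I ∘ σ) J z
    have e' : ∀ (x : (Fin (p + 1) → Fin (q + 3)) → ℂ) I, ∑ σ : Equiv.Perm (Fin (p + 1)),
        ((((p + 1).factorial : ℂ))⁻¹ * (Equiv.Perm.sign σ : ℤ)) * x (I ∘ σ) = AltA x I := by
      intro x I
      unfold AltA
      rw [Finset.mul_sum]
      exact Finset.sum_congr rfl fun σ _ => mul_assoc _ _ _
    have k1 : ∀ I, HB (E0 _) (-((p + 1 : ℕ) : ℤ)) (y' I) := fun I =>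
      hb_comb (a := 0) (zero_add _).symm
        (fun (σ : Equiv.Perm (Fin (p + 1))) _ =>
          (((p + 1).factorial : ℂ))⁻¹ * (Equiv.Perm.sign σ : ℤ)) _
        (fun a c hc z hz => by simp) fun a => hy1 _
    have k2 : ∀ I J, Sob (E0 _) (k + 1) (y' I J) := fun I J =>
      sob_comb L (fun (σ : Equiv.Perm (Fin (p + 1))) _ =>
          (((p + 1).factorial : ℂ))⁻¹ * (Equiv.Perm.sign σ : ℤ)) _
        (fun a => contDiffOn_const) fun a => hy2 _ J
    have k3 : ∀ I, DB (Om ρ) (y' I) (w I) := fun I =>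
      db_comb L hO.1 h0 (fun (σ : Equiv.Perm (Fin (p + 1))) _ =>
          (((p + 1).factorial : ℂ))⁻¹ * (Equiv.Perm.sign σ : ℤ))
        (fun σ => y (I ∘ σ)) (fun σ => w (I ∘ σ)) (fun a => contDiffOn_const)
        (fun _ j z => dzb_const j _ z) (fun a J => l2_of_sob L h0 (hy2 _ J))
        (fun a J => l2_of_sob L h0 (hw3 _ J)) (fun a => hy3 _) (w I) fun J z hz => by
          have h2 := ((L.al1 _ (p + 1) 0 0).1 _).2.2.2.2.2.1 (hwa J z hz.1)
          exact (e' (fun I => w I J z) I).trans (congrFun h2 I)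
    have k4 : ∀ J z, altA fun I => y' I J z := fun J z => by
      have h1 := ((L.al1 _ (p + 1) 0 0).1 fun I => y I J z).2.2.2.2.1
      have h2 : (fun I => y' I J z) = AltA fun I => y I J z :=
        funext fun I => e' (fun I => y I J z) I
      rwa [h2]
    refine ⟨fun I J z => ∑ l, z l * y' (Fin.cons l I) J z, ⟨fun I => ?_, fun I J σ z _ => ?_,
      fun I J a z _ => ?_⟩, fun I J => ?_, fun I => ?_⟩
    · exact hb_comb (a := 1) (m := -((p + 1 : ℕ) : ℤ)) (by push_cast; ring) (fun l z => z l) _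
        (fun l c hc z hz => by simp) fun l => k1 _
    · exact ((L.al1 _ p (fun l => z l) 0).2 _ (k4 J z)).1 I σ
    · exact ((L.al1 _ p (fun l => z l) 0).2 _ (k4 J z)).2.1 I a
    · exact sob_comb L (fun l z => z l) _ (fun l => (contDiff_coord l).contDiffOn) fun l => k2 _ J
    · refine db_comb L hO.1 h0 (fun l z => z l) (fun l => y' (Fin.cons l I))
        (fun l => w (Fin.cons l I)) (fun l => (contDiff_coord l).contDiffOn)
        (fun l j z => dzb_coord j l z) (fun l J => l2_of_sob L h0 (k2 _ J))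
        (fun l J => l2_of_sob L h0 (hw3 _ J)) (fun l => k3 _) (f I) fun J z hz => ?_
      have h1 := ((L.al1 _ p (fun l => z l) fun j => th j z).1 _).2.1 (hfh J z hz.1) I
      rw [sum_th hz.1, one_mul] at h1
      have h2 := ((L.al1 _ p (fun l => z l) 0).2 (fun I => v I J z)
        (fun I σ => hv1.alt I J σ z hz.1)).2.2.2.1.1 (fun I a => hv1.hor I J a z hz.1) I
      have h3 : ∑ l, z l * w (Fin.cons l I) J z =
          ∑ l, z l * g (Fin.cons l I) J z - ∑ l, z l * v (Fin.cons l I) J z := by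
        rw [← Finset.sum_sub_distrib]
        exact Finset.sum_congr rfl fun l _ => mul_sub _ _ _
      rw [h3]
      exact (congrArg₂ (· - ·) h1 h2).trans (sub_zero _)

end

end Pool.Agent.MP_fcd29e_an.H33
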